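import Mathlib
import Pool.Agent.H8.SSep.Defs
import Pool.Agent.H8.SSep.FreeDefs
import Pool.Agent.H8.SSep.Free

set_option autoImplicit false

open TopologicalSpace

namespace Pool.Agent.Results.MP_656a26_gt.FreeInterval

open Pool.Agent.H8.SSep

theorem result :
    (∀ (F : Type) [Group F] [TopologicalSpace F] (i : Set.Icc (0 : ℝ) 1 → F),
      IsFreeTopGroup i → ¬ SSeparable F) ∧
    IsFreeTopGroup (MarkovFree.of : Set.Icc (0 : ℝ) 1 → MarkovFree (Set.Icc (0 : ℝ) 1)) ∧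
    (∀ (t : TopologicalSpace (MarkovFree (Set.Icc (0 : ℝ) 1))),
      @IsTopologicalGroup (MarkovFree (Set.Icc (0 : ℝ) 1)) t _ →
      @Continuous _ (MarkovFree (Set.Icc (0 : ℝ) 1)) _ t MarkovFree.of →
      MarkovFree.top (Set.Icc (0 : ℝ) 1) ≤ t) ∧
    ¬ SSeparable (MarkovFree (Set.Icc (0 : ℝ) 1)) :=
  ⟨free_not, markov_free, markov_finest _, free_not _ _ markov_free⟩

end Pool.Agent.Results.MP_656a26_gt.FreeInterval
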